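import Pool.Agent.H6.KY.Numer

/-!
# Smoothed sums over the powerful numbers
-/

set_option autoImplicit false

open Complex MeasureTheory Filter Topology Set
open H353 H353.D

namespace Pool.Agent.H6.KY

noncomputable section

/-- The smoothed sums are small, for a killing walk. -/
theorem core_pow {ι : Type*} [Countable ι] (b h : ι → ℝ) (h0 : ∀ i, 0 ≤ h i) (hs : Summable h)
    {σ θ ε ε' : ℝ} (h1 : 1 / 2 < σ) (h2 : σ < θ) (h3 : θ < 1) (hε : 0 < ε)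
    {f : ℝ → ℝ} (hf : ST ε' f) {K : ℂ → ℂ} (hK : Kill FF σ K)
    (hGK : ∀ s : ℂ, 0 < s.re → GF f s * KK (fun i => b i / 6) (fun i => 6 * h i) s = GG ε s * K (6 * s)) :
    ∃ C : ℝ, 0 < C ∧ ∀ t : ℝ,
      |∑' n : ℕ, aE n * Av (fun i => b i / 6) (fun i => 6 * h i) f (t - Real.log n)| ≤
        C * Real.exp (θ / 6 * t) := by
  obtain ⟨H, D, N, hD, hHd, hKH, hHb⟩ := exists_H' LT_zeta hK θ h1 h2 h3
  obtain ⟨C', k, hC', hRb⟩ := Rp_bound (θ / 6) (by linarith)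
  set P : ℂ → ℂ := fun s => Rp s * H (6 * s) with hP
  have hre : ∀ s : ℂ, ((6 : ℂ) * s).re = 6 * s.re := by
    intro s
    simp
  obtain ⟨C, hC, hb⟩ := shift_bound' (θ / 6) ε (by linarith) (by linarith) hε P (C' * (D * 6 ^ N)) (k + N)
    (by positivity)
    (fun s hs _ => by
      have d2 : DifferentiableAt ℂ (fun s => H (6 * s)) s := by
        have h5 : DifferentiableAt ℂ H (6 * s) := hHd _ (by rw [hre]; linarith)
        exact h5.comp s (by fun_prop)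
      exact (Rp_diff s).mul d2) (by
      intro s hs1 _
      have hn := norm_nonneg s
      have e3 := hHb (6 * s) (by rw [hre]; linarith)
      have e4 := hRb s hs1
      have e5 : 1 + ‖6 * s‖ ≤ 6 * (1 + ‖s‖) := by
        rw [norm_mul]
        norm_num
        linarith
      have e6 : (1 + ‖6 * s‖) ^ N ≤ 6 ^ N * (1 + ‖s‖) ^ N := by
        rw [← mul_pow]
        gcongr
      rw [hP]
      simp only
      rw [norm_mul]
      calc ‖Rp s‖ * ‖H (6 * s)‖ ≤ (C' * (1 + ‖s‖) ^ k) * (D * (6 ^ N * (1 + ‖s‖) ^ N)) := by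
            refine mul_le_mul e4 (e3.trans ?_) (norm_nonneg _) (by positivity)
            gcongr
        _ = _ := by rw [pow_add]; ring)
  have h0' : ∀ i, 0 ≤ 6 * h i := fun i => by have := h0 i; positivity
  have hs' : Summable (fun i => 6 * h i) := hs.mul_left 6
  refine ⟨C, hC, fun t => ?_⟩
  have hform := gen_formulaF (fun i => b i / 6) (fun i => 6 * h i) h0' hs' hf t aE aE_zero aE_summable
  have e2 : (∫ ξ : ℝ, GF f (ln 2 ξ) * KK (fun i => b i / 6) (fun i => 6 * h i) (ln 2 ξ) *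
      cexp (ln 2 ξ * t) * LSeries (fun n => (aE n : ℂ)) (ln 2 ξ)) =
      ∫ ξ : ℝ, GG ε (ln 2 ξ) * P (ln 2 ξ) * cexp (ln 2 ξ * t) := by
    refine integral_congr_ae (ae_of_all _ fun ξ => ?_)
    have hre2 : (ln 2 ξ).re = 2 := ln_re 2 ξ
    simp only
    generalize ln 2 ξ = s at hre2 ⊢
    have hK' : K (6 * s) = FF (6 * s) * H (6 * s) := hKH _ (by rw [hre, hre2]; linarith)
    have hser := aE_series (s := s) (by rw [hre2]; norm_num)
    rw [hGK s (by rw [hre2]; norm_num), hK', hP]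
    simp only
    rw [← hser]
    ring
  rw [e2] at hform
  have hn : |∑' n : ℕ, aE n * Av (fun i => b i / 6) (fun i => 6 * h i) f (t - Real.log n)| =
      ‖((∑' n : ℕ, aE n * Av (fun i => b i / 6) (fun i => 6 * h i) f (t - Real.log n) : ℝ) : ℂ)‖ := by
    rw [Complex.norm_real, Real.norm_eq_abs]
  rw [hn, hform]
  exact hb t

/-- monotone steps -/
theorem good_mono_gen (σ θ ε : ℝ) (hb1 : 1 / 2 < σ) (hb2 : σ < θ) (h2 : θ < 1) (hε : 0 < ε) :
    ∃ g, ST (ε + 6 * ∑' i, hx FF σ i) g ∧ Monotone g ∧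
      ∃ C : ℝ, 0 < C ∧ ∀ t : ℝ, |SG aE g t| ≤ C * Real.exp (θ / 6 * t) := by
  have hb3 : σ < 1 := by linarith
  have hr : ∀ x : ℝ, σ ≤ x → FF (x : ℂ) ≠ 0 := fun x hx => FF_real_ne x (by linarith)
  have := LT_zeta.ZS_countable σ hb1 hb3
  have hf := Ph_ST ε hε
  have hK := LT_zeta.KS_kill σ hb1 hb3 hr
  have h0 : ∀ i, 0 ≤ hx FF σ i := fun i => (D.hx_pos _ i).le
  have hs := LT_zeta.hx_summable σ hb1 hb3
  have h0' : ∀ i, 0 ≤ 6 * hx FF σ i := fun i => by have := h0 i; positivity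
  have hs' : Summable (fun i => 6 * hx FF σ i) := hs.mul_left 6
  refine ⟨Av (fun i => bx FF σ i / 6) (fun i => 6 * hx FF σ i) (Ph ε), ?_, ?_, ?_⟩
  · rw [← tsum_mul_left]
    exact Av_ST _ _ h0' hs' hf
  · exact Av_mono _ _ h0' hs' hf (Ph_mono ε hε)
  · exact core_pow _ _ h0 hs hb1 hb2 h2 hε hf hK (fun s _ => by
      have := KK_scale (bx FF σ) (hx FF σ) 6 (by norm_num) s
      push_cast at this
      rw [this]
      rfl)

theorem good_mono_pow (θ : ℝ) (h1 : 1 / 2 < θ) (h2 : θ < 1) :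
    ∃ L g, 0 < L ∧ ST L g ∧ Monotone g ∧ ∃ C : ℝ, 0 < C ∧ ∀ t : ℝ, |SG aE g t| ≤ C * Real.exp (θ / 6 * t) := by
  obtain ⟨g, hg⟩ := good_mono_gen ((1 / 2 + θ) / 2) θ 1 (by linarith) (by linarith) h2 one_pos
  refine ⟨_, g, ?_, hg⟩
  have h9 : 0 ≤ ∑' i, hx FF ((1 / 2 + θ) / 2) i := tsum_nonneg fun i => (D.hx_pos _ i).le
  linarith

/-- monotone steps at every scale -/
theorem good_mono_every (L : ℝ) (hL : 0 < L) :
    ∃ θ g, 1 / 2 < θ ∧ θ < 1 ∧ ST L g ∧ Monotone g ∧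
      ∃ C : ℝ, 0 < C ∧ ∀ t : ℝ, |SG aE g t| ≤ C * Real.exp (θ / 6 * t) := by
  have h1 := KW.hx_tendsto LT_zeta
  have h2 : ∀ᶠ σ : ℝ in 𝓝[<] 1, ∑' i, hx FF σ i < L / 12 := h1.eventually (Iio_mem_nhds (by linarith))
  have h3 : ∀ᶠ σ : ℝ in 𝓝[<] 1, 1 / 2 < σ :=
    mem_nhdsWithin_of_mem_nhds (Ioi_mem_nhds (show (1 / 2 : ℝ) < 1 by norm_num))
  have h4 : ∀ᶠ σ : ℝ in 𝓝[<] 1, σ < 1 := self_mem_nhdsWithin
  obtain ⟨σ, h5, h6, h7⟩ := (h2.and (h3.and h4)).exists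
  obtain ⟨g, hg, hm, hb⟩ := good_mono_gen σ ((σ + 1) / 2) (L / 2) h6 (by linarith) (by linarith) (by linarith)
  exact ⟨(σ + 1) / 2, g, by linarith, by linarith, hg.mono (by linarith), hm, hb⟩

theorem qf_scale (ρ s : ℂ) : qf (ρ / 6) s = qf ρ (6 * s) := by
  have e1 : (ρ / 6).re = ρ.re / 6 := by
    have := Complex.div_ofReal_re ρ 6
    push_cast at this
    exact this
  have e2 : ‖ρ / 6‖ ^ 2 = ‖ρ‖ ^ 2 / 36 := by
    rw [norm_div]
    norm_num
    ring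
  have e3 : 2 * (ρ / 6).re / ‖ρ / 6‖ ^ 2 = 6 * (2 * ρ.re / ‖ρ‖ ^ 2) := by
    rw [e1, e2, div_div_eq_mul_div]
    ring
  have e4 : 1 / ‖ρ / 6‖ ^ 2 = 36 * (1 / ‖ρ‖ ^ 2) := by
    rw [e2, div_div_eq_mul_div]
    ring
  unfold qf
  rw [e3, e4]
  push_cast
  ring

/-- signed steps -/
theorem PF_step6 {ε : ℝ} (m : ℂ → ℕ) (F : Finset ℂ) {f : ℝ → ℝ} (h : ST ε f) :
    ∃ g : ℝ → ℝ, ST ε g ∧ ∀ s : ℂ, DD (deriv g) s = D.PF m F (6 * s) * DD (deriv f) s := by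
  classical
  induction F using Finset.induction_on with
  | empty => exact ⟨f, h, fun s => by simp [D.PF]⟩
  | insert a G ha ih =>
    obtain ⟨g, hg, hgs⟩ := ih
    obtain ⟨g', hg', hgs'⟩ := kp_pow (a / 6) (m a) hg
    refine ⟨g', hg', fun s => ?_⟩
    rw [hgs' s, hgs s, qf_scale]
    unfold D.PF
    rw [Finset.prod_insert ha]
    ring

theorem good_signed_pow (L θ : ℝ) (hL : 0 < L) (h1 : 1 / 2 < θ) (h2 : θ < 1) :
    ∃ g, ST L g ∧ ∃ C : ℝ, 0 < C ∧ ∀ t : ℝ, |SG aE g t| ≤ C * Real.exp (θ / 6 * t) := by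
  set σ : ℝ := (1 / 2 + θ) / 2 with hσ
  have hb1 : 1 / 2 < σ := by rw [hσ]; linarith
  have hb2 : σ < θ := by rw [hσ]; linarith
  have hb3 : σ < 1 := by linarith
  have := LT_zeta.ZS_countable σ hb1 hb3
  obtain ⟨T, hTs⟩ := LT_zeta.hT_small σ hb1 hb3 (L / 12) (by linarith)
  obtain ⟨f, hf, hfs⟩ := PF_step6 (mu FF) (LZ LT_zeta σ T) (Ph_ST (L / 2) (by linarith))
  have hK := KL_kill LT_zeta σ T hb1 hb3
  have h0 : ∀ i, 0 ≤ D.hT FF σ T i := D.hT_nonneg _ T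
  have hs := LT_zeta.hT_summable σ T hb1 hb3
  have h0' : ∀ i, 0 ≤ 6 * hT FF σ T i := fun i => by have := h0 i; positivity
  have hs' : Summable (fun i => 6 * hT FF σ T i) := hs.mul_left 6
  refine ⟨Av (fun i => bx FF σ i / 6) (fun i => 6 * hT FF σ T i) f, ?_, ?_⟩
  · have h8 := Av_ST (fun i => bx FF σ i / 6) (fun i => 6 * hT FF σ T i) h0' hs' hf
    have h9 : L / 2 + ∑' i, 6 * hT FF σ T i ≤ L := by
      rw [tsum_mul_left]
      linarith
    exact h8.mono h9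
  · exact core_pow _ _ h0 hs hb1 hb2 h2 (half_pos hL) hf hK (fun s _ => by
      have := KK_scale (bx FF σ) (hT FF σ T) 6 (by norm_num) s
      push_cast at this
      rw [this]
      unfold GF GG D.KL
      rw [hfs s]
      ring)

end

end Pool.Agent.H6.KY
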