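import Pool.Agent.H6.KY.Core
import Pool.Agent.H6.KX.Bound

/-!
# Means of the error term and points
-/

set_option autoImplicit false

open Complex MeasureTheory Filter Topology Set
open H353 H353.D

namespace Pool.Agent.H6.KY

noncomputable section

variable {L : ℝ} {g : ℝ → ℝ}

theorem sum_ind (a : ℕ → ℝ) (t v : ℝ) (hv : 0 ≤ v) (w : ℝ → ℝ) :
    (∑ n ∈ Finset.Icc 1 ⌊Real.exp (t - v)⌋₊, a n) * w v =
      ∑ n ∈ Finset.Icc 1 ⌊Real.exp t⌋₊, a n * (Set.indicator {u : ℝ | u ≤ t - Real.log n} w v) := by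
  rw [Finset.sum_mul]
  have hsub : Finset.Icc 1 ⌊Real.exp (t - v)⌋₊ ⊆ Finset.Icc 1 ⌊Real.exp t⌋₊ := by
    refine Finset.Icc_subset_Icc_right (Nat.floor_le_floor ?_)
    exact Real.exp_le_exp.2 (by linarith)
  have key : ∀ n : ℕ, 1 ≤ n → (n ≤ ⌊Real.exp (t - v)⌋₊ ↔ v ≤ t - Real.log n) := by
    intro n hn
    have hn0 : (0 : ℝ) < n := by exact_mod_cast hn
    rw [Nat.le_floor_iff (Real.exp_pos _).le, ← Real.log_le_iff_le_exp hn0]
    constructor <;> intro h <;> linarith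
  rw [← Finset.sum_subset hsub]
  · refine Finset.sum_congr rfl fun n hn => ?_
    rw [Finset.mem_Icc] at hn
    rw [Set.indicator_of_mem]
    exact (key n hn.1).1 hn.2
  · intro n hn hn2
    rw [Finset.mem_Icc] at hn
    rw [Set.indicator_of_notMem, mul_zero]
    intro h
    exact hn2 (Finset.mem_Icc.2 ⟨hn.1, (key n hn.1).2 h⟩)

theorem deriv_cont (hg : ST L g) : Continuous (deriv g) :=
  ((contDiff_infty_iff_deriv.1 hg.smooth).2).continuous

theorem ind_int (hg : ST L g) (c : ℝ) :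
    IntervalIntegrable (Set.indicator {u : ℝ | u ≤ c} (deriv g)) volume 0 L := by
  rw [intervalIntegrable_iff]
  have h := intervalIntegrable_iff.1 ((deriv_cont hg).intervalIntegrable (μ := volume) 0 L)
  exact h.indicator measurableSet_Iic

theorem ind_val (hg : ST L g) (hL : 0 ≤ L) (c : ℝ) (hc : 0 ≤ c) :
    ∫ v in (0:ℝ)..L, Set.indicator {u : ℝ | u ≤ c} (deriv g) v = g c := by
  have hd : ∀ r : ℝ, ∫ v in (0:ℝ)..r, deriv g v = g r - g 0 := by
    intro r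
    refine intervalIntegral.integral_deriv_eq_sub (fun x _ => ?_) ((deriv_cont hg).intervalIntegrable _ _)
    exact (hg.smooth.differentiable (by simp)).differentiableAt
  have g0 : g 0 = 0 := hg.zero 0 le_rfl
  rcases le_total c L with h | h
  · rw [intervalIntegral.integral_indicator ⟨hc, h⟩, hd, g0, sub_zero]
  · have e : ∫ v in (0:ℝ)..L, Set.indicator {u : ℝ | u ≤ c} (deriv g) v = ∫ v in (0:ℝ)..L, deriv g v := by
      refine intervalIntegral.integral_congr fun v hv => ?_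
      rw [uIcc_of_le hL] at hv
      rw [Set.indicator_of_mem]
      exact hv.2.trans h
    rw [e, hd, g0, sub_zero, hg.one L le_rfl, hg.one c h]

theorem mean_int (a : ℕ → ℝ) (hL : 0 ≤ L) (hg : ST L g) (t : ℝ) :
    IntervalIntegrable (fun v => (∑ n ∈ Finset.Icc 1 ⌊Real.exp (t - v)⌋₊, a n) * deriv g v) volume 0 L := by
  have h : IntervalIntegrable (fun v => ∑ n ∈ Finset.Icc 1 ⌊Real.exp t⌋₊,
      a n * (Set.indicator {u : ℝ | u ≤ t - Real.log n} (deriv g) v)) volume 0 L := by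
    have h0 := IntervalIntegrable.sum (μ := volume) (a := 0) (b := L) (Finset.Icc 1 ⌊Real.exp t⌋₊)
      (f := fun n v => a n * (Set.indicator {u : ℝ | u ≤ t - Real.log n} (deriv g) v))
      (fun n _ => (ind_int hg _).const_mul _)
    have e0 : (fun v => ∑ n ∈ Finset.Icc 1 ⌊Real.exp t⌋₊,
        a n * (Set.indicator {u : ℝ | u ≤ t - Real.log n} (deriv g) v)) =
        ∑ n ∈ Finset.Icc 1 ⌊Real.exp t⌋₊,
          fun v => a n * (Set.indicator {u : ℝ | u ≤ t - Real.log n} (deriv g) v) := by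
      funext v
      rw [Finset.sum_apply]
    rw [e0]
    exact h0
  refine h.congr ?_
  intro v hv
  rw [uIoc_of_le hL] at hv
  exact (sum_ind a t v hv.1.le (deriv g)).symm

/-- the smoothed sum is a mean of the summatory function -/
theorem SG_mean (a : ℕ → ℝ) (ha0 : a 0 = 0) (hL : 0 ≤ L) (hg : ST L g) (t : ℝ) :
    SG a g t = ∫ v in (0:ℝ)..L, (∑ n ∈ Finset.Icc 1 ⌊Real.exp (t - v)⌋₊, a n) * deriv g v := by
  have e : ∫ v in (0:ℝ)..L, (∑ n ∈ Finset.Icc 1 ⌊Real.exp (t - v)⌋₊, a n) * deriv g v =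
      ∫ v in (0:ℝ)..L, ∑ n ∈ Finset.Icc 1 ⌊Real.exp t⌋₊,
        a n * (Set.indicator {u : ℝ | u ≤ t - Real.log n} (deriv g) v) := by
    refine intervalIntegral.integral_congr fun v hv => ?_
    rw [uIcc_of_le hL] at hv
    exact sum_ind a t v hv.1 (deriv g)
  rw [e, intervalIntegral.integral_finsetSum (fun n _ => (ind_int hg _).const_mul _), KX.SG_fin hg ha0 (le_refl t)]
  refine Finset.sum_congr rfl fun n hn => ?_
  rw [Finset.mem_Icc] at hn
  have hn0 : (0 : ℝ) < n := by exact_mod_cast hn.1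
  have h1 : Real.log n ≤ t := by
    rw [Real.log_le_iff_le_exp hn0]
    exact (Nat.le_floor_iff (Real.exp_pos t).le).1 hn.2
  rw [intervalIntegral.integral_const_mul, ind_val hg hL _ (by linarith)]

/-- the number of powerful numbers up to `x` -/
def Q (x : ℝ) : ℕ := {n : ℕ | 1 ≤ n ∧ (n : ℝ) ≤ x ∧ ∀ p : ℕ, p.Prime → p ∣ n → p ^ 2 ∣ n}.ncard

/-- the error term -/
def E (x : ℝ) : ℝ := Q x - cA * x ^ (1 / 2 : ℝ) - cB * x ^ (1 / 3 : ℝ)

theorem sum_aPow {x : ℝ} (hx : 0 ≤ x) : ∑ n ∈ Finset.Icc 1 ⌊x⌋₊, aPow n = Q x := by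
  classical
  have e : {n : ℕ | 1 ≤ n ∧ (n : ℝ) ≤ x ∧ ∀ p : ℕ, p.Prime → p ∣ n → p ^ 2 ∣ n} =
      ((Finset.Icc 1 ⌊x⌋₊).filter (fun n => ∀ p : ℕ, p.Prime → p ∣ n → p ^ 2 ∣ n) : Set ℕ) := by
    ext n
    simp only [Set.mem_ofPred_eq, Finset.coe_filter, Finset.mem_Icc, Nat.le_floor_iff hx]
    tauto
  unfold Q
  rw [e, Set.ncard_coe_finset, Finset.card_filter]
  push_cast
  refine Finset.sum_congr rfl fun n hn => ?_
  rw [Finset.mem_Icc] at hn
  have hn0 : n ≠ 0 := by omega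
  unfold aPow
  simp [hn0]

theorem sum_aKth (k : ℕ) (hk : k ≠ 0) {x : ℝ} (hx : 0 ≤ x) :
    |∑ n ∈ Finset.Icc 1 ⌊x⌋₊, aKth k n - x ^ (1 / (k : ℝ))| ≤ 1 := by
  classical
  set M : ℕ := ⌊x ^ (1 / (k : ℝ))⌋₊ with hM
  have hx' : 0 ≤ x ^ (1 / (k : ℝ)) := Real.rpow_nonneg hx _
  have hk0 : (0 : ℝ) < k := by exact_mod_cast Nat.pos_of_ne_zero hk
  have key : ∀ m : ℕ, m ≤ M ↔ m ^ k ≤ ⌊x⌋₊ := by
    intro m
    rw [hM, Nat.le_floor_iff hx', Nat.le_floor_iff hx]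
    push_cast
    rw [one_div, Real.le_rpow_inv_iff_of_pos (Nat.cast_nonneg m) hx hk0, Real.rpow_natCast]
  have e : ∑ n ∈ Finset.Icc 1 ⌊x⌋₊, aKth k n = M := by
    have e1 : (Finset.Icc 1 ⌊x⌋₊).filter (fun n => ∃ m : ℕ, m ≠ 0 ∧ m ^ k = n) =
        (Finset.Icc 1 M).image (fun m => m ^ k) := by
      ext n
      simp only [Finset.mem_filter, Finset.mem_Icc, Finset.mem_image]
      constructor
      · rintro ⟨⟨_, h2⟩, m, hm, rfl⟩
        exact ⟨m, ⟨Nat.one_le_iff_ne_zero.2 hm, (key m).2 h2⟩, rfl⟩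
      · rintro ⟨m, ⟨h1, h2⟩, rfl⟩
        exact ⟨⟨Nat.one_le_pow _ _ h1, (key m).1 h2⟩, m, by omega, rfl⟩
    have e2 : ∑ n ∈ Finset.Icc 1 ⌊x⌋₊, aKth k n =
        (((Finset.Icc 1 ⌊x⌋₊).filter (fun n => ∃ m : ℕ, m ≠ 0 ∧ m ^ k = n)).card : ℝ) := by
      rw [Finset.card_filter]
      push_cast
      refine Finset.sum_congr rfl fun n _ => ?_
      unfold aKth
      rfl
    rw [e2, e1, Finset.card_image_of_injective _ (Nat.pow_left_injective hk), Nat.card_Icc]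
    simp
  rw [e, abs_le]
  have h1 := Nat.floor_le hx'
  have h2 := Nat.lt_floor_add_one (x ^ (1 / (k : ℝ)))
  rw [← hM] at h1 h2
  constructor <;> linarith

theorem SS_E {x : ℝ} (hx : 0 ≤ x) : |∑ n ∈ Finset.Icc 1 ⌊x⌋₊, aE n - E x| ≤ |cA| + |cB| := by
  have e : ∑ n ∈ Finset.Icc 1 ⌊x⌋₊, aE n = Q x - cA * ∑ n ∈ Finset.Icc 1 ⌊x⌋₊, aKth 2 n -
      cB * ∑ n ∈ Finset.Icc 1 ⌊x⌋₊, aKth 3 n := by
    unfold aE
    rw [Finset.sum_sub_distrib, Finset.sum_sub_distrib, sum_aPow hx, Finset.mul_sum, Finset.mul_sum]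
  have h2 := sum_aKth 2 (by norm_num) hx
  have h3 := sum_aKth 3 (by norm_num) hx
  push_cast at h2 h3
  rw [e]
  unfold E
  have e2 : (Q x : ℝ) - cA * ∑ n ∈ Finset.Icc 1 ⌊x⌋₊, aKth 2 n - cB * ∑ n ∈ Finset.Icc 1 ⌊x⌋₊, aKth 3 n -
      (Q x - cA * x ^ (1 / 2 : ℝ) - cB * x ^ (1 / 3 : ℝ)) =
      -(cA * (∑ n ∈ Finset.Icc 1 ⌊x⌋₊, aKth 2 n - x ^ (1 / 2 : ℝ))) -
        cB * (∑ n ∈ Finset.Icc 1 ⌊x⌋₊, aKth 3 n - x ^ (1 / 3 : ℝ)) := by ring
  rw [e2]
  refine (abs_sub _ _).trans ?_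
  rw [abs_neg, abs_mul, abs_mul]
  have := abs_nonneg cA
  have := abs_nonneg cB
  nlinarith

/-- **Means.** -/
theorem mean_E (hL : 0 < L) (hg : ST L g) {C θ : ℝ} (hθ : 0 < θ) (hC : 0 < C)
    (hb : ∀ t : ℝ, |SG aE g t| ≤ C * Real.exp (θ * t)) :
    ∃ C' : ℝ, 0 < C' ∧ ∀ x : ℝ, 1 ≤ x →
      |∫ v in (0:ℝ)..L, E (x * Real.exp (-v)) * deriv g v| ≤ C' * x ^ θ := by
  obtain ⟨M, hM⟩ := (isCompact_Icc (a := (0:ℝ)) (b := L)).exists_bound_of_continuousOn
    (deriv_cont hg).continuousOn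
  have hM0 : 0 ≤ M := (norm_nonneg _).trans (hM 0 ⟨le_rfl, hL.le⟩)
  set c0 : ℝ := |cA| + |cB| with hc0
  have hc00 : 0 ≤ c0 := by positivity
  refine ⟨C + c0 * M * L, by positivity, fun x hx => ?_⟩
  have hx0 : 0 < x := by linarith
  set t : ℝ := Real.log x with ht
  have hxt : x = Real.exp t := (Real.exp_log hx0).symm
  have hxv : ∀ v : ℝ, x * Real.exp (-v) = Real.exp (t - v) := by
    intro v
    rw [hxt, ← Real.exp_add]
    ring_nf
  have hpos : ∀ v : ℝ, 0 ≤ Real.exp (t - v) := fun v => (Real.exp_pos _).le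
  simp_rw [hxv]
  -- integrability
  have i1 := mean_int (g := g) aE hL.le hg t
  have i2 := mean_int (g := g) aPow hL.le hg t
  have i3 : IntervalIntegrable (fun v => E (Real.exp (t - v)) * deriv g v) volume 0 L := by
    have i4 : IntervalIntegrable (fun v => (cA * (Real.exp (t - v)) ^ (1 / 2 : ℝ) +
        cB * (Real.exp (t - v)) ^ (1 / 3 : ℝ)) * deriv g v) volume 0 L := by
      have hd := deriv_cont hg
      have h5 : ∀ r : ℝ, 0 ≤ r → Continuous fun v : ℝ => (Real.exp (t - v)) ^ r := by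
        intro r hr
        exact (by fun_prop : Continuous fun v : ℝ => Real.exp (t - v)).rpow_const fun v => Or.inr hr
      have h6 := h5 (1 / 2) (by norm_num)
      have h7 := h5 (1 / 3) (by norm_num)
      exact (((continuous_const.mul h6).add (continuous_const.mul h7)).mul hd).intervalIntegrable _ _
    refine (i2.sub i4).congr ?_
    intro v _
    simp only
    rw [sum_aPow (hpos v)]
    unfold E
    ring
  have e1 : ∫ v in (0:ℝ)..L, E (Real.exp (t - v)) * deriv g v =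
      SG aE g t - ∫ v in (0:ℝ)..L, ((∑ n ∈ Finset.Icc 1 ⌊Real.exp (t - v)⌋₊, aE n) * deriv g v -
        E (Real.exp (t - v)) * deriv g v) := by
    rw [intervalIntegral.integral_sub i1 i3, ← SG_mean aE aE_zero hL.le hg t]
    ring
  have h2 : ‖∫ v in (0:ℝ)..L, ((∑ n ∈ Finset.Icc 1 ⌊Real.exp (t - v)⌋₊, aE n) * deriv g v -
        E (Real.exp (t - v)) * deriv g v)‖ ≤ (c0 * M) * |L - 0| := by
    refine intervalIntegral.norm_integral_le_of_norm_le_const fun v hv => ?_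
    rw [uIoc_of_le hL.le] at hv
    rw [← sub_mul, norm_mul]
    refine mul_le_mul (SS_E (hpos v)) (hM v ⟨hv.1.le, hv.2⟩) (norm_nonneg _) hc00
  rw [sub_zero, abs_of_pos hL, Real.norm_eq_abs] at h2
  have h3 := hb t
  have e3 : Real.exp (θ * t) = x ^ θ := by
    rw [ht, Real.rpow_def_of_pos hx0, mul_comm]
  rw [e3] at h3
  have h4 : 1 ≤ x ^ θ := Real.one_le_rpow hx hθ.le
  rw [e1]
  calc |SG aE g t - ∫ v in (0:ℝ)..L, ((∑ n ∈ Finset.Icc 1 ⌊Real.exp (t - v)⌋₊, aE n) * deriv g v -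
        E (Real.exp (t - v)) * deriv g v)| ≤ C * x ^ θ + c0 * M * L := by
        refine (abs_sub _ _).trans (add_le_add h3 h2)
    _ ≤ C * x ^ θ + c0 * M * L * x ^ θ := by
        have : 0 ≤ c0 * M * L := by positivity
        nlinarith
    _ = _ := by ring

theorem Q_le {x : ℝ} (hx : 0 ≤ x) : (Q x : ℝ) ≤ x := by
  rw [← sum_aPow hx]
  calc ∑ n ∈ Finset.Icc 1 ⌊x⌋₊, aPow n ≤ ∑ n ∈ Finset.Icc 1 ⌊x⌋₊, (1 : ℝ) :=
        Finset.sum_le_sum fun n _ => (le_abs_self _).trans (aPow_abs n)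
    _ = (⌊x⌋₊ : ℝ) := by simp
    _ ≤ x := Nat.floor_le hx

theorem E_triv {x : ℝ} (hx : 1 ≤ x) : |E x| ≤ (1 + |cA| + |cB|) * x := by
  have h1 := Q_le (x := x) (by linarith)
  have h0 : (0 : ℝ) ≤ Q x := Nat.cast_nonneg _
  have h2 : x ^ (1 / 2 : ℝ) ≤ x := by
    calc x ^ (1 / 2 : ℝ) ≤ x ^ (1 : ℝ) := Real.rpow_le_rpow_of_exponent_le hx (by norm_num)
      _ = x := Real.rpow_one x
  have h3 : x ^ (1 / 3 : ℝ) ≤ x := by
    calc x ^ (1 / 3 : ℝ) ≤ x ^ (1 : ℝ) := Real.rpow_le_rpow_of_exponent_le hx (by norm_num)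
      _ = x := Real.rpow_one x
  have h4 : 0 ≤ x ^ (1 / 2 : ℝ) := by positivity
  have h5 : 0 ≤ x ^ (1 / 3 : ℝ) := by positivity
  unfold E
  calc |(Q x : ℝ) - cA * x ^ (1 / 2 : ℝ) - cB * x ^ (1 / 3 : ℝ)| ≤
      |(Q x : ℝ)| + |cA * x ^ (1 / 2 : ℝ)| + |cB * x ^ (1 / 3 : ℝ)| := by
        refine (abs_sub _ _).trans ?_
        have := abs_sub (Q x : ℝ) (cA * x ^ (1 / 2 : ℝ))
        linarith
    _ ≤ x + |cA| * x + |cB| * x := by
        rw [abs_mul, abs_mul, abs_of_nonneg h0, abs_of_nonneg h4, abs_of_nonneg h5]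
        gcongr
    _ = _ := by ring

/-- **Points.** -/
theorem points_E (hL : 0 < L) (hg : ST L g) (hm : Monotone g) {C θ : ℝ} (hθ : 0 < θ) (hC : 0 < C)
    (hb : ∀ t : ℝ, |SG aE g t| ≤ C * Real.exp (θ * t)) (B : ℝ) (hB : Real.exp L < B) :
    ∃ C' : ℝ, 0 < C' ∧ ∀ x : ℝ, 1 ≤ x → ∃ y : ℝ, x ≤ y ∧ y ≤ B * x ∧ |E y| ≤ C' * y ^ θ := by
  set A : ℝ := Real.exp L with hA
  have hA1 : 1 < A := by rw [hA]; exact Real.one_lt_exp_iff.2 hL
  set W : ℝ → ℝ := fun y => if 0 < y then g (Real.log y) else 0 with hW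
  have W0 : ∀ y ≤ 1, W y = 0 := by
    intro y hy
    rw [hW]
    simp only
    split_ifs with h
    · exact hg.zero _ (Real.log_nonpos h.le hy)
    · rfl
  have W1 : ∀ y, A ≤ y → W y = 1 := by
    intro y hy
    have hy0 : 0 < y := by linarith
    rw [hW]
    simp only [if_pos hy0]
    exact hg.one _ ((Real.le_log_iff_exp_le hy0).2 hy)
  have Wm : Monotone W := by
    intro y z hyz
    rw [hW]
    simp only
    by_cases hy : 0 < y
    · have hz : 0 < z := by linarith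
      rw [if_pos hy, if_pos hz]
      exact hm (Real.log_le_log hy hyz)
    · rw [if_neg hy]
      split_ifs with hz
      · rcases le_total (Real.log z) 0 with h | h
        · rw [hg.zero _ h]
        · have := hm h
          rw [hg.zero 0 le_rfl] at this
          exact this
      · exact le_rfl
  set J : ℝ := 1 + |cA| + |cB| with hJ
  have hJ0 : 0 < J := by positivity
  set x0 : ℝ := A / (B - A) with hx0
  have hBA : 0 < B - A := by linarith
  have hB0 : 0 < B := by linarith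
  have hx00 : 0 < x0 := by positivity
  refine ⟨C * B ^ θ + 2 * J + J * x0, by positivity, fun x hx => ?_⟩
  rcases le_total x x0 with hxx | hxx
  · refine ⟨x, le_rfl, by nlinarith, ?_⟩
    have h8 : 1 ≤ x ^ θ := Real.one_le_rpow hx hθ.le
    have h9 : 0 ≤ C * B ^ θ := by positivity
    calc |E x| ≤ J * x := E_triv hx
      _ ≤ J * x0 := by gcongr
      _ ≤ (C * B ^ θ + 2 * J + J * x0) * 1 := by linarith
      _ ≤ _ := by gcongr
  set X : ℝ := A * (x + 1) with hX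
  have hX0 : 0 < X := by positivity
  have hAX : A ≤ X := by nlinarith
  have hXB : X ≤ B * x := by
    rw [hx0, div_le_iff₀ hBA] at hxx
    rw [hX]
    nlinarith
  have hlog : ∀ n ∈ Finset.Icc 1 ⌊X⌋₊, aE n * W (X / n) = aE n * g (Real.log X - Real.log n) := by
    intro n hn
    rw [Finset.mem_Icc] at hn
    have hn0 : (0 : ℝ) < n := by exact_mod_cast hn.1
    rw [hW]
    simp only [if_pos (div_pos hX0 hn0)]
    rw [Real.log_div hX0.ne' hn0.ne']
  have hT : |∑ n ∈ Finset.Icc 1 ⌊X⌋₊, aE n * W (X / n)| ≤ C * X ^ θ := by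
    rw [Finset.sum_congr rfl hlog]
    have h1 := KX.SG_fin hg aE_zero (le_refl (Real.log X))
    rw [Real.exp_log hX0] at h1
    rw [← h1]
    have h2 := hb (Real.log X)
    rw [show Real.exp (θ * Real.log X) = X ^ θ by rw [Real.rpow_def_of_pos hX0, mul_comm]] at h2
    exact h2
  obtain ⟨m, hm1, hm2, hm3⟩ := KW.point hA1 W0 W1 Wm aE (C * X ^ θ) J X hAX hJ0.le hT
    (fun n _ _ => aE_abs n)
  have e1 : X / A = x + 1 := by
    rw [hX]
    field_simp
  rw [e1] at hm1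
  have hxm : x ≤ m := by linarith
  have hm0 : (1 : ℝ) ≤ m := hx.trans hxm
  refine ⟨m, hxm, hm2.trans hXB, ?_⟩
  have h5 := SS_E (x := (m : ℝ)) (by linarith)
  rw [Nat.floor_natCast] at h5
  have h6 : X ≤ B * m := hXB.trans (by gcongr)
  have h7 : X ^ θ ≤ B ^ θ * (m : ℝ) ^ θ := by
    rw [← Real.mul_rpow (by positivity) (by positivity)]
    exact Real.rpow_le_rpow hX0.le h6 hθ.le
  have h8 : 1 ≤ (m : ℝ) ^ θ := Real.one_le_rpow hm0 hθ.le
  have h9 : |E m| ≤ |∑ n ∈ Finset.Icc 1 m, aE n| + (|cA| + |cB|) := by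
    have h10 := abs_sub (∑ n ∈ Finset.Icc 1 m, aE n) (∑ n ∈ Finset.Icc 1 m, aE n - E m)
    rw [sub_sub_cancel] at h10
    linarith
  have h11 : 0 ≤ J * x0 * (m : ℝ) ^ θ := by positivity
  calc |E m| ≤ (C * X ^ θ + J) + (|cA| + |cB|) := h9.trans (by linarith)
    _ ≤ C * (B ^ θ * (m : ℝ) ^ θ) + 2 * J := by
      have : C * X ^ θ ≤ C * (B ^ θ * (m : ℝ) ^ θ) := by gcongr
      have : |cA| + |cB| ≤ J := by rw [hJ]; linarith
      linarith
    _ ≤ C * (B ^ θ * (m : ℝ) ^ θ) + 2 * J * (m : ℝ) ^ θ := by nlinarith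
    _ ≤ (C * B ^ θ + 2 * J + J * x0) * (m : ℝ) ^ θ := by nlinarith

end

end Pool.Agent.H6.KY
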