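import Pool.Agent.H6.KW.Local

/-!
# Shifting the inversion integral far to the left
-/

set_option autoImplicit false

open Complex MeasureTheory Filter Topology Set
open H353 H353.D

namespace Pool.Agent.H6.KY

noncomputable section

/-- shift of the inversion integral from `2` to `τ > 0` with a polynomially bounded factor -/
theorem shift_bound' (τ ε : ℝ) (h1 : 0 < τ) (h3 : τ < 1) (hε : 0 < ε) (P : ℂ → ℂ) (D : ℝ) (N : ℕ)
    (hD : 0 < D) (hPd : ∀ s : ℂ, τ ≤ s.re → s.re ≤ 2 → DifferentiableAt ℂ P s)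
    (hPb : ∀ s : ℂ, τ ≤ s.re → s.re ≤ 2 → ‖P s‖ ≤ D * (1 + ‖s‖) ^ N) :
    ∃ C : ℝ, 0 < C ∧ ∀ t : ℝ, ‖∫ ξ : ℝ, GG ε (ln 2 ξ) * P (ln 2 ξ) * cexp (ln 2 ξ * t)‖ ≤
      C * Real.exp (τ * t) := by
  obtain ⟨C2, hC2, hG⟩ := GG_decay ε hε (N + 1)
  set k : ℝ := 1 + 1 / τ with hk
  have hk1 : 1 < k := by
    rw [hk]
    have : 0 < 1 / τ := by positivity
    linarith
  set f : ℝ → ℂ → ℂ := fun t s => GG ε s * P s * cexp (s * t) with hf
  set E : ℝ := k ^ N * k ^ 2 * D * C2 with hE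
  have hE0 : 0 < E := by positivity
  have hfb : ∀ t : ℝ, ∀ s : ℂ, τ ≤ s.re → s.re ≤ 2 →
      ‖f t s‖ ≤ E * Real.exp (s.re * t) * (1 + s.im ^ 2)⁻¹ := by
    intro t s hs1 hs2
    have hn : τ ≤ ‖s‖ := by
      have := (le_abs_self s.re).trans (Complex.abs_re_le_norm s)
      linarith
    have hn0 : 0 < ‖s‖ := by linarith
    have hkn : 1 + ‖s‖ ≤ k * ‖s‖ := by
      rw [hk]
      have : 1 ≤ (1 / τ) * ‖s‖ := by
        rw [one_div, ← div_eq_inv_mul, le_div_iff₀ h1]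
        linarith
      linarith
    have e1 : ‖f t s‖ = ‖GG ε s‖ * ‖P s‖ * Real.exp (s.re * t) := by
      rw [hf]
      simp only [norm_mul]
      rw [Complex.norm_exp, Complex.re_mul_ofReal]
    have e3 : ‖P s‖ ≤ D * (k ^ N * ‖s‖ ^ N) := by
      refine (hPb s hs1 hs2).trans ?_
      rw [← mul_pow]
      gcongr
    have e4 := hG s (by linarith)
    have e5 : (1 + s.im ^ 2) ≤ k ^ 2 * ‖s‖ ^ 2 := by
      have h6 : s.im ^ 2 ≤ ‖s‖ ^ 2 := by
        have := Complex.abs_im_le_norm s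
        rw [← sq_abs]
        gcongr
      have h7 : (1 + ‖s‖) ^ 2 ≤ (k * ‖s‖) ^ 2 := by gcongr
      nlinarith
    have hpos : 0 < 1 + s.im ^ 2 := by positivity
    rw [e1, ← div_eq_mul_inv, le_div_iff₀ hpos]
    have hGn := norm_nonneg (GG ε s)
    have hE := Real.exp_pos (s.re * t)
    calc ‖GG ε s‖ * ‖P s‖ * Real.exp (s.re * t) * (1 + s.im ^ 2)
        ≤ ‖GG ε s‖ * (D * (k ^ N * ‖s‖ ^ N)) * Real.exp (s.re * t) * (k ^ 2 * ‖s‖ ^ 2) := by gcongr
      _ = (k ^ N * k ^ 2 * D * Real.exp (s.re * t)) * (‖s‖ ^ (N + 1 + 1) * ‖GG ε s‖) := by ring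
      _ ≤ (k ^ N * k ^ 2 * D * Real.exp (s.re * t)) * C2 := by gcongr
      _ = _ := by ring
  have hpi : 0 < ∫ ξ : ℝ, (1 + ξ ^ 2)⁻¹ := by
    rw [integral_univ_inv_one_add_sq]
    exact Real.pi_pos
  refine ⟨E * ∫ ξ : ℝ, (1 + ξ ^ 2)⁻¹, by positivity, fun t => ?_⟩
  have hfd : ∀ s : ℂ, τ ≤ s.re → s.re ≤ 2 → DifferentiableAt ℂ (f t) s := by
    intro s hs1 hs2
    have hs0 : s ≠ 0 := by
      rintro rfl
      simp at hs1
      linarith
    have d1 := GG_diffAt ε hε s hs0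
    have d2 := hPd s hs1 hs2
    rw [hf]
    simp only
    fun_prop
  have hshift := shift_ln τ 2 (by linarith) (f t) hfd (E * Real.exp (2 * |t|)) (by
    intro s hs1 hs2
    refine (hfb t s hs1 hs2).trans ?_
    have : s.re * t ≤ 2 * |t| := by
      have h6 : s.re * t ≤ s.re * |t| := mul_le_mul_of_nonneg_left (le_abs_self t) (by linarith)
      have h7 : s.re * |t| ≤ 2 * |t| := mul_le_mul_of_nonneg_right hs2 (abs_nonneg t)
      linarith
    gcongr)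
  show ‖∫ ξ : ℝ, f t (ln 2 ξ)‖ ≤ _
  rw [← hshift]
  calc ‖∫ ξ : ℝ, f t (ln τ ξ)‖ ≤ ∫ ξ : ℝ, E * Real.exp (τ * t) * (1 + ξ ^ 2)⁻¹ := by
        refine norm_integral_le_of_norm_le (integrable_inv_one_add_sq.const_mul _) (ae_of_all _ fun ξ => ?_)
        refine (hfb t (ln τ ξ) (by rw [ln_re]) (by rw [ln_re]; linarith)).trans ?_
        rw [ln_re, ln_im]
        have : ξ ^ 2 ≤ (2 * Real.pi * ξ) ^ 2 := by
          have hpi : 1 ≤ (2 * Real.pi) ^ 2 := by nlinarith [Real.pi_gt_three]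
          nlinarith [sq_nonneg ξ]
        have hp : 0 < 1 + ξ ^ 2 := by positivity
        have : (1 + (2 * Real.pi * ξ) ^ 2)⁻¹ ≤ (1 + ξ ^ 2)⁻¹ := inv_anti₀ hp (by linarith)
        gcongr
    _ = (E * ∫ ξ : ℝ, (1 + ξ ^ 2)⁻¹) * Real.exp (τ * t) := by
        rw [integral_const_mul]
        ring

/-- the quotient is polynomially bounded to the right of `θ` -/
theorem exists_H' {Φ : ℂ → ℂ} (hΦ : LT Φ) {σ : ℝ} {K : ℂ → ℂ} (hK : Kill Φ σ K) (θ : ℝ)
    (h1 : 1 / 2 < σ) (h2 : σ < θ) (h3 : θ < 1) :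
    ∃ H : ℂ → ℂ, ∃ D : ℝ, ∃ N : ℕ, 0 < D ∧ (∀ s : ℂ, σ < s.re → DifferentiableAt ℂ H s) ∧
      (∀ s : ℂ, σ < s.re → K s = Φ s * H s) ∧
      ∀ s : ℂ, θ ≤ s.re → ‖H s‖ ≤ D * (1 + ‖s‖) ^ N := by
  obtain ⟨H, D, N, hD, hHd, hKH, hHb⟩ := Kill.exists_H hΦ hK θ h1 h2 h3
  obtain ⟨D1, m, hD1, hb1⟩ := hK.bound
  obtain ⟨c0, hc0, hc1, hlow⟩ := hΦ.lower
  refine ⟨H, D + D1 / c0, N + m, by positivity, hHd, hKH, fun s hs => ?_⟩
  have hn := norm_nonneg s
  have h1n : 1 ≤ 1 + ‖s‖ := by linarith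
  rcases le_total s.re 2 with h | h
  · calc ‖H s‖ ≤ D * ‖s‖ ^ N := hHb s hs h
      _ ≤ (D + D1 / c0) * (1 + ‖s‖) ^ (N + m) := by
        have e1 : D ≤ D + D1 / c0 := by
          have : 0 < D1 / c0 := by positivity
          linarith
        have e2 : ‖s‖ ^ N ≤ (1 + ‖s‖) ^ N := by gcongr; linarith
        have e3 : (1 + ‖s‖) ^ N ≤ (1 + ‖s‖) ^ (N + m) := pow_le_pow_right₀ h1n (by omega)
        exact mul_le_mul e1 (e2.trans e3) (by positivity) (by positivity)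
  · have e0 := hKH s (by linarith)
    have e4 := hlow s h
    have e5 := hb1 s (by linarith)
    have e6 : ‖H s‖ * c0 ≤ D1 * (1 + ‖s‖) ^ m := by
      rw [e0, norm_mul] at e5
      refine le_trans ?_ e5
      rw [mul_comm]
      gcongr
    calc ‖H s‖ ≤ D1 * (1 + ‖s‖) ^ m / c0 := by rw [le_div_iff₀ hc0]; exact e6
      _ = D1 / c0 * (1 + ‖s‖) ^ m := by ring
      _ ≤ (D + D1 / c0) * (1 + ‖s‖) ^ (N + m) := by
        have e1 : D1 / c0 ≤ D + D1 / c0 := by linarith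
        have e3 : (1 + ‖s‖) ^ m ≤ (1 + ‖s‖) ^ (N + m) := pow_le_pow_right₀ h1n (by omega)
        exact mul_le_mul e1 e3 (by positivity) (by positivity)

/-- scaling of the killing function -/
theorem KK_scale {ι : Type*} (b h : ι → ℝ) (m : ℝ) (hm : m ≠ 0) (s : ℂ) :
    KK (fun i => b i / m) (fun i => m * h i) s = KK b h (m * s) := by
  have e1 : PP (fun i => b i / m) (fun i => m * h i) = PP b h := by
    unfold PP
    congr 1
    funext i
    have : b i / m * (m * h i) = b i * h i := by field_simp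
    unfold pr
    rw [this]
  have e2 : ∀ ω : ι → Bool, XX (fun i => m * h i) ω = m * XX h ω := by
    intro ω
    unfold XX
    rw [← tsum_mul_left]
    refine tsum_congr fun i => ?_
    split_ifs <;> simp
  unfold KK
  rw [e1]
  refine integral_congr_ae (ae_of_all _ fun ω => ?_)
  simp only [e2]
  congr 1
  push_cast
  ring

end

end Pool.Agent.H6.KY
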