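import Pool.Agent.H6.KY.Series
import Pool.Agent.H6.KY.Shift
import Pool.Graph.R_pool_sql_team_seeded_f0cf7b00.H353R5.C9

/-!
# The numerator
-/

set_option autoImplicit false

open Complex MeasureTheory Filter Topology Set Metric
open H353 H353.D

namespace Pool.Agent.H6.KY

noncomputable section

/-- the constant of `x^(1/2)` -/
def cA : ℝ := (riemannZeta (3 / 2) / riemannZeta 3).re

/-- the constant of `x^(1/3)` -/
def cB : ℝ := (riemannZeta (2 / 3) / riemannZeta 2).re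

theorem FF_real (x : ℝ) : (((FF (x : ℂ)).re : ℝ) : ℂ) = FF (x : ℂ) := by
  have h := FF_conj (x : ℂ)
  rw [Complex.conj_ofReal] at h
  exact (Complex.conj_eq_iff_re.1 h.symm)

theorem zeta_real (x : ℝ) (hx : (x : ℂ) ≠ 1) : (((riemannZeta (x : ℂ)).re : ℝ) : ℂ) = riemannZeta (x : ℂ) := by
  have h0 : (x : ℂ) - 1 ≠ 0 := sub_ne_zero.2 hx
  have h1 : FF (x : ℂ) = ((x : ℂ) - 1) * riemannZeta (x : ℂ) := ZU.J_g2b.FF_ne hx
  have h2 : riemannZeta (x : ℂ) = ((((FF (x : ℂ)).re / (x - 1) : ℝ)) : ℂ) := by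
    push_cast
    rw [FF_real, h1]
    field_simp
  rw [h2, Complex.ofReal_re]

theorem zeta_quot (x y : ℝ) (hx : (x : ℂ) ≠ 1) (hy : (y : ℂ) ≠ 1) :
    ((((riemannZeta (x : ℂ) / riemannZeta (y : ℂ)).re : ℝ)) : ℂ) = riemannZeta (x : ℂ) / riemannZeta (y : ℂ) := by
  rw [← zeta_real x hx, ← zeta_real y hy, ← Complex.ofReal_div, Complex.ofReal_re]

theorem cA_eq : (cA : ℂ) = riemannZeta (3 / 2) / riemannZeta 3 := by
  have h := zeta_quot (3 / 2) 3 (by norm_num) (by norm_num)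
  push_cast at h
  exact h

theorem cB_eq : (cB : ℂ) = riemannZeta (2 / 3) / riemannZeta 2 := by
  have h := zeta_quot (2 / 3) 2 (by norm_num) (by norm_num)
  push_cast at h
  exact h

/-- the product of `R` and `(2 s - 1) (3 s - 1)` -/
def Mm (s : ℂ) : ℂ :=
  (6 * s - 1) * (FF (2 * s) * FF (3 * s)) - (cA * (3 * s - 1)) * (FF (2 * s) * FF (6 * s)) -
    (cB * (2 * s - 1)) * (FF (3 * s) * FF (6 * s))

/-- the numerator -/
def Rp (s : ℂ) : ℂ := (1 / 6) * dslope (dslope Mm (1 / 2)) (1 / 3) s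

theorem dslope_diff {f : ℂ → ℂ} (hf : Differentiable ℂ f) (c : ℂ) : Differentiable ℂ (dslope f c) := by
  rw [← differentiableOn_univ] at hf ⊢
  exact (Complex.differentiableOn_dslope (Filter.univ_mem)).2 hf

theorem Mm_diff : Differentiable ℂ Mm := by
  have h : Differentiable ℂ FF := ZU.J_g2b.FF_diff
  unfold Mm
  fun_prop

theorem Rp_diff : Differentiable ℂ Rp := by
  unfold Rp
  exact (dslope_diff (dslope_diff Mm_diff _) _).const_mul _

theorem Mm_half : Mm (1 / 2) = 0 := by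
  have h1 : FF 1 = 1 := ZU.J_g2b.FF_one
  have h2 : FF (3 / 2) = (3 / 2 - 1) * riemannZeta (3 / 2) := ZU.J_g2b.FF_ne (by norm_num)
  have h3 : FF 3 = (3 - 1) * riemannZeta 3 := ZU.J_g2b.FF_ne (by norm_num)
  have h4 : riemannZeta 3 ≠ 0 := riemannZeta_ne_zero_of_one_le_re (by norm_num)
  unfold Mm
  rw [show (2 : ℂ) * (1 / 2) = 1 by norm_num, show (3 : ℂ) * (1 / 2) = 3 / 2 by norm_num,
    show (6 : ℂ) * (1 / 2) = 3 by norm_num, h1, h2, h3, cA_eq]
  field_simp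
  ring

theorem Mm_third : Mm (1 / 3) = 0 := by
  have h1 : FF 1 = 1 := ZU.J_g2b.FF_one
  have h2 : FF (2 / 3) = (2 / 3 - 1) * riemannZeta (2 / 3) := ZU.J_g2b.FF_ne (by norm_num)
  have h3 : FF 2 = (2 - 1) * riemannZeta 2 := ZU.J_g2b.FF_ne (by norm_num)
  have h4 : riemannZeta 2 ≠ 0 := riemannZeta_ne_zero_of_one_le_re (by norm_num)
  unfold Mm
  rw [show (3 : ℂ) * (1 / 3) = 1 by norm_num, show (2 : ℂ) * (1 / 3) = 2 / 3 by norm_num,
    show (6 : ℂ) * (1 / 3) = 2 by norm_num, h1, h2, h3, cB_eq]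
  field_simp
  ring

theorem Rp_eq {s : ℂ} (h1 : s ≠ 1 / 2) (h2 : s ≠ 1 / 3) : Rp s = Mm s / ((2 * s - 1) * (3 * s - 1)) := by
  have e1 : ∀ z : ℂ, z ≠ 1 / 2 → dslope Mm (1 / 2) z = Mm z / (z - 1 / 2) := by
    intro z hz
    rw [dslope_of_ne _ hz, slope_def_field, Mm_half, sub_zero]
  have e2 : dslope Mm (1 / 2) (1 / 3) = 0 := by
    rw [e1 _ (by norm_num), Mm_third, zero_div]
  have h3 : s - 1 / 2 ≠ 0 := sub_ne_zero.2 h1
  have h4 : s - 1 / 3 ≠ 0 := sub_ne_zero.2 h2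
  have e5 : (2 * s - 1) * (3 * s - 1) = 6 * ((s - 1 / 2) * (s - 1 / 3)) := by ring
  unfold Rp
  rw [dslope_of_ne _ h2, slope_def_field, e2, e1 s h1, sub_zero, e5]
  field_simp

theorem Rp_bound (τ : ℝ) (hτ : 0 < τ) : ∃ C : ℝ, ∃ k : ℕ, 0 < C ∧ ∀ s : ℂ, τ ≤ s.re →
    ‖Rp s‖ ≤ C * (1 + ‖s‖) ^ k := by
  obtain ⟨C, hC, k, hb⟩ := LT_zeta.bound τ hτ
  have hF : ∀ m : ℝ, 1 ≤ m → m ≤ 6 → ∀ s : ℂ, τ ≤ s.re → ‖FF ((m : ℂ) * s)‖ ≤ C * 6 ^ k * (1 + ‖s‖) ^ k := by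
    intro m hm1 hm6 s hs
    have hn := norm_nonneg s
    have h1 : τ ≤ ((m : ℂ) * s).re := by
      rw [Complex.re_ofReal_mul]
      nlinarith
    refine (hb _ h1).trans ?_
    rw [norm_mul, Complex.norm_real, Real.norm_eq_abs, abs_of_pos (by linarith), mul_assoc, ← mul_pow]
    have : 1 + m * ‖s‖ ≤ 6 * (1 + ‖s‖) := by nlinarith
    gcongr
  have hF2 : ∀ s : ℂ, τ ≤ s.re → ‖FF (2 * s)‖ ≤ C * 6 ^ k * (1 + ‖s‖) ^ k := by
    intro s hs
    simpa using hF 2 (by norm_num) (by norm_num) s hs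
  have hF3 : ∀ s : ℂ, τ ≤ s.re → ‖FF (3 * s)‖ ≤ C * 6 ^ k * (1 + ‖s‖) ^ k := by
    intro s hs
    simpa using hF 3 (by norm_num) (by norm_num) s hs
  have hF6 : ∀ s : ℂ, τ ≤ s.re → ‖FF (6 * s)‖ ≤ C * 6 ^ k * (1 + ‖s‖) ^ k := by
    intro s hs
    simpa using hF 6 (by norm_num) (by norm_num) s hs
  set G : ℝ := C * 6 ^ k with hG
  have hG0 : 0 < G := by positivity
  obtain ⟨B0, hB0⟩ := (isCompact_closedBall (0 : ℂ) 2).exists_bound_of_continuousOn
    Rp_diff.continuous.continuousOn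
  set B1 : ℝ := (7 + 4 * |cA| + 3 * |cB|) * G ^ 2 with hB1
  have hB10 : 0 < B1 := by positivity
  refine ⟨max B0 0 + B1, 1 + (k + k), by positivity, fun s hs => ?_⟩
  have hn := norm_nonneg s
  have h1n : (1 : ℝ) ≤ 1 + ‖s‖ := by linarith
  have hp1 : (1 : ℝ) ≤ (1 + ‖s‖) ^ (1 + (k + k)) := one_le_pow₀ h1n
  rcases le_total ‖s‖ 2 with h | h
  · have h2 := hB0 s (by simpa [mem_closedBall, dist_zero_right] using h)
    have h3 : ‖Rp s‖ ≤ max B0 0 + B1 := h2.trans ((le_max_left _ _).trans (by linarith))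
    calc ‖Rp s‖ ≤ (max B0 0 + B1) * 1 := by rw [mul_one]; exact h3
      _ ≤ _ := by gcongr
  · have hs1 : s ≠ 1 / 2 := by
      rintro rfl
      norm_num at h
    have hs2 : s ≠ 1 / 3 := by
      rintro rfl
      norm_num at h
    rw [Rp_eq hs1 hs2, norm_div, norm_mul]
    have d1 : 1 ≤ ‖2 * s - 1‖ := by
      have := norm_sub_norm_le (2 * s) 1
      rw [norm_mul, norm_one] at this
      norm_num at this
      linarith
    have d2 : 1 ≤ ‖3 * s - 1‖ := by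
      have := norm_sub_norm_le (3 * s) 1
      rw [norm_mul, norm_one] at this
      norm_num at this
      linarith
    have d3 : 1 ≤ ‖2 * s - 1‖ * ‖3 * s - 1‖ := by nlinarith
    refine (div_le_self (norm_nonneg _) d3).trans ?_
    have l1 : ‖6 * s - 1‖ ≤ 7 * (1 + ‖s‖) := by
      calc ‖6 * s - 1‖ ≤ ‖6 * s‖ + ‖(1:ℂ)‖ := norm_sub_le _ _
        _ = 6 * ‖s‖ + 1 := by rw [norm_mul, norm_one]; norm_num
        _ ≤ _ := by linarith
    have l2 : ‖(cA : ℂ) * (3 * s - 1)‖ ≤ (4 * |cA|) * (1 + ‖s‖) := by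
      rw [norm_mul, Complex.norm_real, Real.norm_eq_abs]
      have : ‖3 * s - 1‖ ≤ 4 * (1 + ‖s‖) := by
        calc ‖3 * s - 1‖ ≤ ‖3 * s‖ + ‖(1:ℂ)‖ := norm_sub_le _ _
          _ = 3 * ‖s‖ + 1 := by rw [norm_mul, norm_one]; norm_num
          _ ≤ _ := by linarith
      have h9 := abs_nonneg cA
      nlinarith
    have l3 : ‖(cB : ℂ) * (2 * s - 1)‖ ≤ (3 * |cB|) * (1 + ‖s‖) := by
      rw [norm_mul, Complex.norm_real, Real.norm_eq_abs]
      have : ‖2 * s - 1‖ ≤ 3 * (1 + ‖s‖) := by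
        calc ‖2 * s - 1‖ ≤ ‖2 * s‖ + ‖(1:ℂ)‖ := norm_sub_le _ _
          _ = 2 * ‖s‖ + 1 := by rw [norm_mul, norm_one]; norm_num
          _ ≤ _ := by linarith
      have h9 := abs_nonneg cB
      nlinarith
    have m1 : ‖FF (2 * s) * FF (3 * s)‖ ≤ (G * (1 + ‖s‖) ^ k) * (G * (1 + ‖s‖) ^ k) := by
      rw [norm_mul]
      exact mul_le_mul (hF2 s hs) (hF3 s hs) (norm_nonneg _) (by positivity)
    have m2 : ‖FF (2 * s) * FF (6 * s)‖ ≤ (G * (1 + ‖s‖) ^ k) * (G * (1 + ‖s‖) ^ k) := by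
      rw [norm_mul]
      exact mul_le_mul (hF2 s hs) (hF6 s hs) (norm_nonneg _) (by positivity)
    have m3 : ‖FF (3 * s) * FF (6 * s)‖ ≤ (G * (1 + ‖s‖) ^ k) * (G * (1 + ‖s‖) ^ k) := by
      rw [norm_mul]
      exact mul_le_mul (hF3 s hs) (hF6 s hs) (norm_nonneg _) (by positivity)
    set Y : ℝ := (G * (1 + ‖s‖) ^ k) * (G * (1 + ‖s‖) ^ k) with hY
    have hY0 : 0 ≤ Y := by positivity
    have n1 : ‖(6 * s - 1) * (FF (2 * s) * FF (3 * s))‖ ≤ 7 * (1 + ‖s‖) * Y := by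
      rw [norm_mul]
      exact mul_le_mul l1 m1 (norm_nonneg _) (by positivity)
    have n2 : ‖(cA * (3 * s - 1)) * (FF (2 * s) * FF (6 * s))‖ ≤ (4 * |cA|) * (1 + ‖s‖) * Y := by
      rw [norm_mul]
      exact mul_le_mul l2 m2 (norm_nonneg _) (by positivity)
    have n3 : ‖(cB * (2 * s - 1)) * (FF (3 * s) * FF (6 * s))‖ ≤ (3 * |cB|) * (1 + ‖s‖) * Y := by
      rw [norm_mul]
      exact mul_le_mul l3 m3 (norm_nonneg _) (by positivity)
    have hM : ‖Mm s‖ ≤ B1 * (1 + ‖s‖) ^ (1 + (k + k)) := by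
      unfold Mm
      refine (norm_sub_le _ _).trans ?_
      refine (add_le_add ((norm_sub_le _ _).trans (add_le_add n1 n2)) n3).trans (le_of_eq ?_)
      rw [hY, hB1, pow_add, pow_add]
      ring
    refine hM.trans ?_
    have h5 : B1 ≤ max B0 0 + B1 := by
      have := le_max_right B0 0
      linarith
    gcongr

/-- the coefficients -/
def aE (n : ℕ) : ℝ := aPow n - cA * aKth 2 n - cB * aKth 3 n

theorem aE_zero : aE 0 = 0 := by
  unfold aE
  rw [aPow_zero, aKth_zero, aKth_zero]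
  ring

theorem aE_abs (n : ℕ) : |aE n| ≤ 1 + |cA| + |cB| := by
  unfold aE
  have h1 := aPow_abs n
  have h2 := aKth_abs 2 n
  have h3 := aKth_abs 3 n
  calc |aPow n - cA * aKth 2 n - cB * aKth 3 n| ≤ |aPow n| + |cA * aKth 2 n| + |cB * aKth 3 n| := by
        refine (abs_sub _ _).trans ?_
        have := abs_sub (aPow n) (cA * aKth 2 n)
        linarith
    _ ≤ 1 + |cA| * 1 + |cB| * 1 := by
        rw [abs_mul, abs_mul]
        gcongr
    _ = _ := by ring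

theorem aE_summable : Summable (fun n : ℕ => |aE n| / (n : ℝ) ^ 2) := by
  have h : Summable (fun n : ℕ => (1 + |cA| + |cB|) * (1 / (n : ℝ) ^ 2)) :=
    (Real.summable_one_div_nat_pow.2 (by norm_num)).mul_left _
  refine Summable.of_nonneg_of_le (fun n => by positivity) (fun n => ?_) h
  rw [mul_one_div]
  have := aE_abs n
  gcongr

theorem aE_series {s : ℂ} (hs : 1 < s.re) : FF (6 * s) * LSeries (fun n => (aE n : ℂ)) s = Rp s := by
  have b1 : LSeriesSummable (fun n => (aPow n : ℂ)) s :=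
    LSeriesSummable_of_bounded_of_one_lt_re (m := 1) (fun n _ => by
      rw [Complex.norm_real]; exact aPow_abs n) hs
  have b2 : ∀ k : ℕ, LSeriesSummable (fun n => (aKth k n : ℂ)) s := fun k =>
    LSeriesSummable_of_bounded_of_one_lt_re (m := 1) (fun n _ => by
      rw [Complex.norm_real]; exact aKth_abs k n) hs
  have hL : LSeries (fun n => (aE n : ℂ)) s = LSeries (fun n => (aPow n : ℂ)) s -
      cA * riemannZeta (2 * s) - cB * riemannZeta (3 * s) := by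
    have e : (fun n => (aE n : ℂ)) = ((fun n => (aPow n : ℂ)) - (cA : ℂ) • (fun n => (aKth 2 n : ℂ))) -
        (cB : ℂ) • (fun n => (aKth 3 n : ℂ)) := by
      funext n
      simp only [Pi.sub_apply, Pi.smul_apply, smul_eq_mul]
      unfold aE
      push_cast
      ring
    have k2 := LSeries_aKth 2 (by norm_num) hs
    have k3 := LSeries_aKth 3 (by norm_num) hs
    push_cast at k2 k3
    rw [e, LSeries_sub (b1.sub ((b2 2).smul _)) ((b2 3).smul _), LSeries_sub b1 ((b2 2).smul _),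
      LSeries_smul, LSeries_smul, k2, k3]
  have hP := LSeries_aPow hs
  have hre : ∀ m : ℝ, 1 ≤ m → 1 < ((m : ℂ) * s).re := by
    intro m hm
    rw [Complex.re_ofReal_mul]
    nlinarith
  have hne : ∀ m : ℝ, 1 ≤ m → (m : ℂ) * s ≠ 1 := by
    intro m hm h0
    have := hre m hm
    rw [h0] at this
    simp at this
  have n2 : (2 : ℂ) * s ≠ 1 := by simpa using hne 2 (by norm_num)
  have n3 : (3 : ℂ) * s ≠ 1 := by simpa using hne 3 (by norm_num)
  have n6 : (6 : ℂ) * s ≠ 1 := by simpa using hne 6 (by norm_num)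
  have F2 : FF (2 * s) = (2 * s - 1) * riemannZeta (2 * s) := ZU.J_g2b.FF_ne n2
  have F3 : FF (3 * s) = (3 * s - 1) * riemannZeta (3 * s) := ZU.J_g2b.FF_ne n3
  have F6 : FF (6 * s) = (6 * s - 1) * riemannZeta (6 * s) := ZU.J_g2b.FF_ne n6
  have hs1 : s ≠ 1 / 2 := by
    rintro rfl
    norm_num at hs
  have hs2 : s ≠ 1 / 3 := by
    rintro rfl
    norm_num at hs
  have z2 : (2 : ℂ) * s - 1 ≠ 0 := sub_ne_zero.2 n2
  have z3 : (3 : ℂ) * s - 1 ≠ 0 := sub_ne_zero.2 n3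
  rw [Rp_eq hs1 hs2, eq_div_iff (mul_ne_zero z2 z3), hL]
  unfold Mm
  rw [F2, F3, F6]
  linear_combination (6 * s - 1) * (2 * s - 1) * (3 * s - 1) * hP

end

end Pool.Agent.H6.KY
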