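import Mathlib

/-!
# The Dirichlet series of the powerful numbers
-/

set_option autoImplicit false

open Complex Filter Topology Set

namespace Pool.Agent.H6.KY

noncomputable section

open scoped Classical in
/-- the indicator function of the powerful numbers -/
def aPow (n : ℕ) : ℝ := if n ≠ 0 ∧ ∀ p : ℕ, p.Prime → p ∣ n → p ^ 2 ∣ n then 1 else 0

open scoped Classical in
/-- the indicator function of the `k`-th powers -/
def aKth (k n : ℕ) : ℝ := if ∃ m : ℕ, m ≠ 0 ∧ m ^ k = n then 1 else 0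

theorem aPow_zero : aPow 0 = 0 := by simp [aPow]
theorem aPow_one : aPow 1 = 1 := by
  unfold aPow
  rw [if_pos]
  refine ⟨one_ne_zero, fun p hp h => ?_⟩
  exact absurd (Nat.dvd_one.1 h) hp.one_lt.ne'

theorem aPow_abs (n : ℕ) : |aPow n| ≤ 1 := by
  unfold aPow
  split_ifs <;> simp

theorem aKth_abs (k n : ℕ) : |aKth k n| ≤ 1 := by
  unfold aKth
  split_ifs <;> simp

theorem aKth_zero {k : ℕ} : aKth k 0 = 0 := by
  unfold aKth
  rw [if_neg]
  rintro ⟨m, hm, h⟩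
  exact hm (eq_zero_of_pow_eq_zero h)

theorem aPow_mul {m n : ℕ} (h : m.Coprime n) : aPow (m * n) = aPow m * aPow n := by
  have key : (m * n ≠ 0 ∧ ∀ p : ℕ, p.Prime → p ∣ m * n → p ^ 2 ∣ m * n) ↔
      (m ≠ 0 ∧ ∀ p : ℕ, p.Prime → p ∣ m → p ^ 2 ∣ m) ∧
      (n ≠ 0 ∧ ∀ p : ℕ, p.Prime → p ∣ n → p ^ 2 ∣ n) := by
    constructor
    · rintro ⟨h0, h1⟩
      have hm : m ≠ 0 := left_ne_zero_of_mul h0
      have hn : n ≠ 0 := right_ne_zero_of_mul h0
      refine ⟨⟨hm, fun p hp hpm => ?_⟩, ⟨hn, fun p hp hpn => ?_⟩⟩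
      · have h2 := h1 p hp (hpm.mul_right n)
        have h3 : Nat.Coprime (p ^ 2) n := Nat.Coprime.pow_left 2 (Nat.Coprime.coprime_dvd_left hpm h)
        exact h3.dvd_of_dvd_mul_right h2
      · have h2 := h1 p hp (hpn.mul_left m)
        have h3 : Nat.Coprime (p ^ 2) m :=
          Nat.Coprime.pow_left 2 (Nat.Coprime.coprime_dvd_left hpn h.symm)
        exact h3.dvd_of_dvd_mul_left h2
    · rintro ⟨⟨hm, h1⟩, ⟨hn, h2⟩⟩
      refine ⟨mul_ne_zero hm hn, fun p hp hpmn => ?_⟩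
      rcases (Nat.Prime.dvd_mul hp).1 hpmn with h3 | h3
      · exact (h1 p hp h3).mul_right n
      · exact (h2 p hp h3).mul_left m
  unfold aPow
  by_cases h1 : (m ≠ 0 ∧ ∀ p : ℕ, p.Prime → p ∣ m → p ^ 2 ∣ m)
  · by_cases h2 : (n ≠ 0 ∧ ∀ p : ℕ, p.Prime → p ∣ n → p ^ 2 ∣ n)
    · rw [if_pos (key.2 ⟨h1, h2⟩), if_pos h1, if_pos h2, mul_one]
    · rw [if_neg (fun h => h2 (key.1 h).2), if_neg h2, mul_zero]
  · rw [if_neg (fun h => h1 (key.1 h).1), if_neg h1, zero_mul]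

theorem aPow_prime {p : ℕ} (hp : p.Prime) : aPow p = 0 := by
  unfold aPow
  rw [if_neg]
  rintro ⟨_, h⟩
  have h1 := Nat.le_of_dvd hp.pos (h p hp dvd_rfl)
  nlinarith [hp.two_le]

theorem aPow_prime_pow {p : ℕ} (hp : p.Prime) (e : ℕ) : aPow (p ^ (e + 2)) = 1 := by
  unfold aPow
  rw [if_pos]
  refine ⟨pow_ne_zero _ hp.pos.ne', fun q hq h => ?_⟩
  have h1 : q = p := (Nat.prime_dvd_prime_iff_eq hq hp).1 (hq.dvd_of_dvd_pow h)
  rw [h1]
  exact pow_dvd_pow p (by omega)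

/-- the terms -/
def fP (s : ℂ) (n : ℕ) : ℂ := (aPow n : ℂ) * (n : ℂ) ^ (-s)

theorem fP_summable {s : ℂ} (hs : 1 < s.re) : Summable (fun n => ‖fP s n‖) := by
  have h := Complex.summable_one_div_nat_cpow (p := s) |>.2 hs
  refine Summable.of_nonneg_of_le (fun n => norm_nonneg _) (fun n => ?_) h.norm
  unfold fP
  rw [norm_mul, Complex.cpow_neg, one_div]
  have h1 : ‖((aPow n : ℝ) : ℂ)‖ ≤ 1 := by
    rw [Complex.norm_real]
    exact aPow_abs n
  calc ‖((aPow n : ℝ) : ℂ)‖ * ‖((n : ℂ) ^ s)⁻¹‖ ≤ 1 * ‖((n : ℂ) ^ s)⁻¹‖ := by gcongr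
    _ = _ := one_mul _

theorem natpow_cpow (m k : ℕ) (s : ℂ) : ((m ^ k : ℕ) : ℂ) ^ s = ((m : ℂ) ^ s) ^ k := by
  induction k with
  | zero => simp
  | succ k ih =>
    rw [pow_succ, pow_succ, ← ih]
    push_cast
    have := Complex.natCast_mul_natCast_cpow (m ^ k) m s
    push_cast at this
    exact this

theorem norm_lt {p : ℕ} (hp : p.Prime) {s : ℂ} (hs : 0 < s.re) : ‖(p : ℂ) ^ (-s)‖ < 1 := by
  rw [Complex.norm_natCast_cpow_of_pos hp.pos]
  refine Real.rpow_lt_one_of_one_lt_of_neg (by exact_mod_cast hp.one_lt) ?_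
  simp only [neg_re]
  linarith

theorem local_sum {p : ℕ} (hp : p.Prime) {s : ℂ} (hs : 0 < s.re) (x : ℂ) (hx : (p : ℂ) ^ (-s) = x) :
    ∑' e : ℕ, fP s (p ^ e) = 1 + x ^ 2 / (1 - x) := by
  have hxn : ‖x‖ < 1 := by
    rw [← hx]
    exact norm_lt hp hs
  refine HasSum.tsum_eq ?_
  have e1 : (fun e : ℕ => fP s (p ^ (e + 2))) = fun e : ℕ => x ^ 2 * x ^ e := by
    funext e
    unfold fP
    rw [aPow_prime_pow hp, natpow_cpow, hx, ofReal_one, one_mul, pow_add, mul_comm]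
  have h2 : HasSum (fun e : ℕ => fP s (p ^ (e + 2))) (x ^ 2 * (1 - x)⁻¹) := by
    rw [e1]
    exact (hasSum_geometric_of_norm_lt_one hxn).mul_left (x ^ 2)
  have h4 := (hasSum_nat_add_iff (f := fun e : ℕ => fP s (p ^ e)) 2).1 h2
  have f0 : fP s 1 = 1 := by
    unfold fP
    rw [aPow_one]
    simp
  have f1 : fP s p = 0 := by
    unfold fP
    rw [aPow_prime hp]
    simp
  have e5 : ∑ i ∈ Finset.range 2, fP s (p ^ i) = 1 := by
    rw [Finset.sum_range_succ, Finset.sum_range_one, pow_zero, pow_one, f0, f1, add_zero]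
  rw [e5] at h4
  rw [add_comm, div_eq_mul_inv]
  exact h4

theorem local_alg (x : ℂ) (hx : ‖x‖ < 1) :
    (1 + x ^ 2 / (1 - x)) * (1 - x ^ 6)⁻¹ = (1 - x ^ 2)⁻¹ * (1 - x ^ 3)⁻¹ := by
  have h : ∀ k : ℕ, k ≠ 0 → 1 - x ^ k ≠ 0 := by
    intro k hk h0
    have h1 : x ^ k = 1 := (sub_eq_zero.1 h0).symm
    have h2 : ‖x‖ ^ k = 1 := by rw [← norm_pow, h1, norm_one]
    have h3 := pow_lt_one₀ (norm_nonneg x) hx hk
    linarith
  have h1 : 1 - x ≠ 0 := by simpa using h 1 one_ne_zero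
  have h2 := h 2 (by norm_num)
  have h3 := h 3 (by norm_num)
  have h6 := h 6 (by norm_num)
  field_simp
  ring

theorem euler {s : ℂ} (hs : 1 < s.re) :
    (∑' n, fP s n) * riemannZeta (6 * s) = riemannZeta (2 * s) * riemannZeta (3 * s) := by
  have h1 : HasProd (fun p : Nat.Primes => ∑' e : ℕ, fP s ((p : ℕ) ^ e)) (∑' n, fP s n) := by
    refine EulerProduct.eulerProduct_hasProd ?_ ?_ (fP_summable hs) ?_
    · simp [fP, aPow_one]
    · intro m n hmn
      unfold fP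
      rw [aPow_mul hmn]
      push_cast
      rw [Complex.natCast_mul_natCast_cpow]
      ring
    · simp [fP, aPow_zero]
  have hre : ∀ k : ℝ, 1 ≤ k → 1 < ((k : ℂ) * s).re := by
    intro k hk
    rw [Complex.re_ofReal_mul]
    nlinarith
  have hz2 := riemannZeta_eulerProduct_hasProd (s := 2 * s) (by simpa using hre 2 (by norm_num))
  have hz3 := riemannZeta_eulerProduct_hasProd (s := 3 * s) (by simpa using hre 3 (by norm_num))
  have hz6 := riemannZeta_eulerProduct_hasProd (s := 6 * s) (by simpa using hre 6 (by norm_num))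
  have e : (fun p : Nat.Primes => (∑' e : ℕ, fP s ((p : ℕ) ^ e)) * (1 - ((p : ℕ) : ℂ) ^ (-(6 * s)))⁻¹) =
      fun p : Nat.Primes => (1 - ((p : ℕ) : ℂ) ^ (-(2 * s)))⁻¹ * (1 - ((p : ℕ) : ℂ) ^ (-(3 * s)))⁻¹ := by
    funext p
    obtain ⟨p, hp⟩ := p
    have hpow : ∀ k : ℕ, (p : ℂ) ^ (-((k : ℂ) * s)) = ((p : ℂ) ^ (-s)) ^ k := by
      intro k
      rw [← Complex.cpow_nat_mul]
      congr 1
      ring
    have e2 : (p : ℂ) ^ (-(2 * s)) = ((p : ℂ) ^ (-s)) ^ 2 := by simpa using hpow 2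
    have e3 : (p : ℂ) ^ (-(3 * s)) = ((p : ℂ) ^ (-s)) ^ 3 := by simpa using hpow 3
    have e6 : (p : ℂ) ^ (-(6 * s)) = ((p : ℂ) ^ (-s)) ^ 6 := by simpa using hpow 6
    show (∑' e : ℕ, fP s (p ^ e)) * (1 - (p : ℂ) ^ (-(6 * s)))⁻¹ =
      (1 - (p : ℂ) ^ (-(2 * s)))⁻¹ * (1 - (p : ℂ) ^ (-(3 * s)))⁻¹
    rw [e2, e3, e6, local_sum hp (by linarith) _ rfl]
    exact local_alg _ (norm_lt hp (by linarith))
  have h2 := h1.mul hz6
  rw [e] at h2
  exact h2.unique (hz2.mul hz3)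

theorem LSeries_aPow {s : ℂ} (hs : 1 < s.re) :
    LSeries (fun n => (aPow n : ℂ)) s * riemannZeta (6 * s) = riemannZeta (2 * s) * riemannZeta (3 * s) := by
  rw [← euler hs]
  congr 1
  refine tsum_congr fun n => ?_
  rcases eq_or_ne n 0 with rfl | hn
  · simp [fP, aPow_zero]
  · rw [LSeries.term_of_ne_zero hn]
    unfold fP
    rw [Complex.cpow_neg]
    rfl

theorem LSeries_aKth (k : ℕ) (hk : k ≠ 0) {s : ℂ} (hs : 1 < s.re) :
    LSeries (fun n => (aKth k n : ℂ)) s = riemannZeta (k * s) := by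
  have hk1 : (1 : ℝ) ≤ k := by exact_mod_cast Nat.one_le_iff_ne_zero.2 hk
  have hre : 1 < ((k : ℂ) * s).re := by
    have : ((k : ℂ) * s).re = k * s.re := by
      rw [← Complex.ofReal_natCast, Complex.re_ofReal_mul]
    rw [this]
    nlinarith
  have hs0 : s ≠ 0 := by
    rintro rfl
    simp at hs
    linarith
  rw [zeta_eq_tsum_one_div_nat_cpow hre]
  have hinj : Function.Injective (fun m : ℕ => m ^ k) := Nat.pow_left_injective hk
  have hsup : Function.support (LSeries.term (fun n => (aKth k n : ℂ)) s) ⊆ Set.range (fun m : ℕ => m ^ k) := by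
    intro n hn
    rw [Function.mem_support] at hn
    by_contra h
    apply hn
    have h1 : aKth k n = 0 := by
      unfold aKth
      rw [if_neg]
      rintro ⟨m, _, hm⟩
      exact h ⟨m, hm⟩
    rcases eq_or_ne n 0 with rfl | hn0
    · simp
    · rw [LSeries.term_of_ne_zero hn0, h1]
      simp
  rw [LSeries, ← hinj.tsum_eq hsup]
  refine tsum_congr fun m => ?_
  rcases eq_or_ne m 0 with rfl | hm
  · have h9 : (k : ℂ) * s ≠ 0 := mul_ne_zero (by exact_mod_cast hk) hs0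
    simp only [zero_pow hk, LSeries.term_zero, Nat.cast_zero, Complex.zero_cpow h9, div_zero]
  · have h1 : m ^ k ≠ 0 := pow_ne_zero _ hm
    rw [LSeries.term_of_ne_zero h1]
    have h2 : aKth k (m ^ k) = 1 := by
      unfold aKth
      rw [if_pos ⟨m, hm, rfl⟩]
    rw [h2, natpow_cpow, ← Complex.cpow_nat_mul, ofReal_one]

end

end Pool.Agent.H6.KY
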